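import Pool.Agent.Lib.MP_426b05_co.Base

/-!
Module LOWER (MP_426b05_co): every strategy fails below the general lower bound.
-/

set_option autoImplicit false

namespace Pool.Agent.Lib.MP_426b05_co.H66

open Finset Filter

theorem card_RS (r n : ℕ) : Fintype.card (RS r n) = n.choose r := by
  have := Fintype.card_finset_len (α := Fin n) r
  rw [Fintype.card_fin] at this
  rw [← this]

theorem pow_le_card_RS (r n : ℕ) (h : 2 * r ≤ n) :
    (n : ℝ) ^ r ≤ 2 ^ r * r.factorial * (Fintype.card (RS r n) : ℝ) := by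
  have h1 : ((n + 1 - r : ℕ) : ℝ) ^ r ≤ r.factorial * n.choose r := by
    have h0 := Nat.pow_le_choose (α := ℝ) r n
    rw [div_le_iff₀ (by positivity)] at h0
    linarith [h0]
  have h2 : (n : ℝ) ≤ 2 * ((n + 1 - r : ℕ) : ℝ) := by
    have : n ≤ 2 * (n + 1 - r) := by omega
    exact_mod_cast this
  rw [card_RS]
  calc (n : ℝ) ^ r ≤ (2 * ((n + 1 - r : ℕ) : ℝ)) ^ r := by gcongr
    _ = 2 ^ r * ((n + 1 - r : ℕ) : ℝ) ^ r := by rw [mul_pow]
    _ ≤ 2 ^ r * (r.factorial * n.choose r) := by gcongr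
    _ = _ := by ring

theorem lower (hU : UnionStatement) (hF : FmStatement) (hA : AnsStatement) : LowerStatement := by
  intro V _ _ r s E hr hrs hEs hEne θ hθ σ hσ t ht
  set m := E.card with hm
  have hm1 : 1 ≤ m := Finset.card_pos.2 hEne
  set v := Fintype.card V with hv
  have hvs : s ≤ v := by
    obtain ⟨f, hf⟩ := hEne
    rw [← hEs f hf]
    exact Finset.card_le_univ f
  set K : ℝ := (v : ℝ) ^ v * (2 ^ v * 2 ^ v) ^ m with hK
  have hK0 : 0 ≤ K := by positivity
  set c : ℝ := 2 ^ r * r.factorial with hc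
  have hc0 : 0 ≤ c := by positivity
  have hlim : Tendsto (fun n => K * (c * ((t n : ℝ) / (n : ℝ) ^ ((r : ℝ) - θ))) ^ m) atTop (nhds 0) := by
    have h1 := ((ht.const_mul c).pow m).const_mul K
    simpa [show m ≠ 0 by omega] using h1
  refine squeeze_zero' (Eventually.of_forall fun n => ?_) ?_ hlim
  · unfold prob
    positivity
  filter_upwards [eventually_ge_atTop (max s (2 * r))] with n hn
  have hns : s ≤ n := (le_max_left _ _).trans hn
  have hn2 : 2 * r ≤ n := (le_max_right _ _).trans hn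
  have hn0 : (0 : ℝ) < n := by
    have : 0 < n := by omega
    exact_mod_cast this
  have hN : 0 < Fintype.card (RS r n) := by
    rw [card_RS]
    exact Nat.choose_pos (by omega)
  have hNr : (0 : ℝ) < (Fintype.card (RS r n) : ℝ) := by exact_mod_cast hN
  have hpow := pow_le_card_RS r n hn2
  set b : ℝ := (n : ℝ) ^ (v - (s - r)) * ((t n : ℝ) / Fintype.card (RS r n)) ^ m with hb
  have hb0 : 0 ≤ b := by positivity
  have h1 := hU V r s n (t n) E hrs hEs hEne (σ n) (hσ n hns) b hb0 hN (by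
    intro χ e R hp
    exact hF V r s n (t n) E hrs hEs (ansOf (σ n) (t n)) (hA r n (t n) (σ n)).1 hN χ e R hp hEne)
  refine h1.trans ?_
  rw [hK]
  refine mul_le_mul_of_nonneg_left ?_ (by positivity)
  have hq : (t n : ℝ) / Fintype.card (RS r n) ≤ c * ((t n : ℝ) / (n : ℝ) ^ r) := by
    rw [div_le_iff₀ hNr]
    have h2 : c * ((t n : ℝ) / (n : ℝ) ^ r) * (Fintype.card (RS r n) : ℝ)
        = (t n : ℝ) * ((c * (Fintype.card (RS r n) : ℝ)) / (n : ℝ) ^ r) := by ring
    rw [h2]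
    have h3 : 1 ≤ (c * (Fintype.card (RS r n) : ℝ)) / (n : ℝ) ^ r := by
      rw [one_le_div (by positivity)]
      exact hpow
    exact le_mul_of_one_le_right (Nat.cast_nonneg _) h3
  have hexp : (n : ℝ) ^ (v - (s - r)) = ((n : ℝ) ^ θ) ^ m := by
    rw [← Real.rpow_natCast ((n : ℝ) ^ θ) m, ← Real.rpow_mul hn0.le, hθ, ← Real.rpow_natCast]
    congr 1
    rw [Nat.cast_sub (by omega), Nat.cast_sub hrs.le]
    ring
  have hsplit : (n : ℝ) ^ ((r : ℝ) - θ) = (n : ℝ) ^ r / (n : ℝ) ^ θ := by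
    rw [Real.rpow_sub hn0, Real.rpow_natCast]
  calc b ≤ (n : ℝ) ^ (v - (s - r)) * (c * ((t n : ℝ) / (n : ℝ) ^ r)) ^ m := by
        rw [hb]
        gcongr
    _ = (c * ((t n : ℝ) / (n : ℝ) ^ ((r : ℝ) - θ))) ^ m := by
        rw [hexp, ← mul_pow, hsplit]
        congr 1
        have : (n : ℝ) ^ θ ≠ 0 := (Real.rpow_pos_of_pos hn0 θ).ne'
        field_simp

end Pool.Agent.Lib.MP_426b05_co.H66
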